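import Mathlib

/-!
# Semisimple modules with equal traces are isomorphic (characteristic zero)
-/

namespace Pool.Agent.Y410.PT

open Module

section act

variable (k : Type) {R : Type} [Field k] [Ring R] [Algebra k R]

/-- the action of an element of the algebra -/
def act (V : Type) [AddCommGroup V] [Module k V] [Module R V] [IsScalarTower k R V] (r : R) :
    V →ₗ[k] V :=
  Algebra.lsmul k k V r

variable {V W : Type} [AddCommGroup V] [AddCommGroup W] [Module k V] [Module k W] [Module R V]
  [Module R W] [IsScalarTower k R V] [IsScalarTower k R W]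

@[simp]
theorem act_apply (r : R) (v : V) : act k V r v = r • v := rfl

theorem tr_congr (e : V ≃ₗ[R] W) (r : R) :
    LinearMap.trace k V (act k V r) = LinearMap.trace k W (act k W r) := by
  rw [← LinearMap.trace_conj' (act k V r) (e.restrictScalars k)]
  congr 1
  ext w
  simp [LinearEquiv.conj_apply]

theorem tr_prod [FiniteDimensional k V] [FiniteDimensional k W] (r : R) :
    LinearMap.trace k (V × W) (act k (V × W) r) =
      LinearMap.trace k V (act k V r) + LinearMap.trace k W (act k W r) := by
  rw [← LinearMap.trace_prodMap']
  congr 1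

/-- density: the projection of the product of two semisimple modules without common constituents is
given by an element of the algebra -/
theorem exists_proj [FiniteDimensional k V] [FiniteDimensional k W] [IsSemisimpleModule R V]
    [IsSemisimpleModule R W] (h1 : ∀ f : V →ₗ[R] W, f = 0) (h2 : ∀ f : W →ₗ[R] V, f = 0) :
    ∃ r : R, (∀ v : V, r • v = v) ∧ ∀ w : W, r • w = 0 := by
  have hs : IsSemisimpleModule R (V × W) := by
    have h3 : IsSemisimpleModule R (LinearMap.range (LinearMap.inl R V W)) :=
      IsSemisimpleModule.range _
    have h4 : IsSemisimpleModule R (LinearMap.range (LinearMap.inr R V W)) :=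
      IsSemisimpleModule.range _
    have h5 := IsSemisimpleModule.sup h3 h4
    rw [LinearMap.sup_range_inl_inr] at h5
    exact IsSemisimpleModule.congr (Submodule.topEquiv (R := R) (M := V × W)).symm
  have hc : ∀ (φ : Module.End R (V × W)) (m : V × W), (((φ m).1, 0) : V × W) = φ (m.1, 0) := by
    rintro φ ⟨v, w⟩
    have e1 : (φ (v, 0)).2 = 0 := by
      have := LinearMap.congr_fun (h1 ((LinearMap.snd R V W) ∘ₗ φ ∘ₗ (LinearMap.inl R V W))) v
      simpa using this
    have e2 : (φ (0, w)).1 = 0 := by
      have := LinearMap.congr_fun (h2 ((LinearMap.fst R V W) ∘ₗ φ ∘ₗ (LinearMap.inr R V W))) w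
      simpa using this
    have e3 : φ (v, w) = φ (v, 0) + φ (0, w) := by
      rw [← map_add]
      simp
    rw [e3]
    ext
    · simp [e2]
    · simp [e1]
  let f : Module.End (Module.End R (V × W)) (V × W) :=
    { toFun := fun m => (m.1, 0)
      map_add' := fun a b => by ext <;> simp
      map_smul' := fun φ m => hc φ m }
  classical
  let b := Module.finBasis k (V × W)
  obtain ⟨r, hr⟩ := jacobson_density (R := R) f (Finset.univ.image b)
  have hall : ∀ m : V × W, r • m = (m.1, 0) := by
    intro m
    let p : (V × W) →ₗ[k] (V × W) := (LinearMap.inl k V W) ∘ₗ (LinearMap.fst k V W)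
    have : act k (V × W) r = p := by
      apply b.ext
      intro i
      have := hr (b i) (Finset.mem_image_of_mem _ (Finset.mem_univ i))
      rw [act_apply, ← this]
      rfl
    have h6 := LinearMap.congr_fun this m
    exact h6
  refine ⟨r, fun v => ?_, fun w => ?_⟩
  · exact congrArg Prod.fst (hall (v, 0))
  · exact congrArg Prod.snd (hall (0, w))

/-- no homomorphisms in one direction: none in the other -/
theorem hom_zero [IsSemisimpleModule R V] [IsSemisimpleModule R W]
    (h1 : ∀ f : V →ₗ[R] W, f = 0) (g : W →ₗ[R] V) : g = 0 := by
  obtain ⟨J, hJ⟩ := exists_isCompl (LinearMap.ker g)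
  obtain ⟨I, hI⟩ := exists_isCompl (LinearMap.range g)
  -- `V → range g ≃ W / ker g ≃ J → W`
  let e : LinearMap.range g ≃ₗ[R] J :=
    (g.quotKerEquivRange).symm.trans (Submodule.quotientEquivOfIsCompl _ _ hJ)
  let F : V →ₗ[R] W := J.subtype ∘ₗ e.toLinearMap ∘ₗ (Submodule.projectionOnto _ _ hI)
  have hF := h1 F
  ext w
  have h3 := LinearMap.congr_fun hF (g w)
  have h4 : Submodule.projectionOnto _ _ hI (g w) =
      (⟨g w, LinearMap.mem_range_self g w⟩ : LinearMap.range g) :=
    Submodule.projectionOnto_apply_left hI ⟨g w, LinearMap.mem_range_self g w⟩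
  simp only [F, LinearMap.comp_apply, LinearEquiv.coe_coe, h4, LinearMap.zero_apply,
    Submodule.subtype_apply] at h3
  have h5 : e ⟨g w, LinearMap.mem_range_self g w⟩ = 0 := Subtype.ext h3
  rw [LinearEquiv.map_eq_zero_iff] at h5
  simpa using congrArg Subtype.val h5

end act

/-- Semisimple modules of finite dimension with equal traces are isomorphic. -/
theorem bn_abs {k R : Type} [Field k] [CharZero k] [Ring R] [Algebra k R] : ∀ (N : ℕ)
    (V W : Type) [AddCommGroup V] [AddCommGroup W] [Module k V] [Module k W] [Module R V]
    [Module R W] [IsScalarTower k R V] [IsScalarTower k R W] [FiniteDimensional k V]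
    [FiniteDimensional k W] [IsSemisimpleModule R V] [IsSemisimpleModule R W],
    finrank k V = N → (∀ r : R, LinearMap.trace k V (act k V r) = LinearMap.trace k W (act k W r)) →
      Nonempty (V ≃ₗ[R] W) := by
  intro N
  induction N using Nat.strong_induction_on with
  | _ N ih =>
    intro V W _ _ _ _ _ _ _ _ _ _ _ _ hN htr
    by_cases h1 : ∀ f : V →ₗ[R] W, f = 0
    · obtain ⟨r, hr1, hr2⟩ := exists_proj k h1 (hom_zero h1)
      have e1 : act k V r = 1 := by
        ext v
        simp [hr1]
      have e2 : act k W r = 0 := by
        ext w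
        simp [hr2]
      have h2 := htr r
      rw [e1, e2, LinearMap.trace_one, map_zero] at h2
      have h3 : finrank k V = 0 := by exact_mod_cast h2
      have h4 := htr 1
      have e3 : act k V (1 : R) = 1 := by
        ext v
        simp
      have e4 : act k W (1 : R) = 1 := by
        ext v
        simp
      rw [e3, e4, LinearMap.trace_one, LinearMap.trace_one, h3] at h4
      have h5 : finrank k W = 0 := by
        have : ((finrank k W : ℕ) : k) = ((0 : ℕ) : k) := by
          rw [← h4]
        exact_mod_cast this
      have s1 : Subsingleton V := Module.finrank_zero_iff.1 h3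
      have s2 : Subsingleton W := Module.finrank_zero_iff.1 h5
      exact ⟨LinearEquiv.ofBijective (0 : V →ₗ[R] W)
        ⟨fun a b _ => Subsingleton.elim a b, fun w => ⟨0, Subsingleton.elim _ _⟩⟩⟩
    · push Not at h1
      obtain ⟨X, hX⟩ := h1
      obtain ⟨C, hC⟩ := exists_isCompl (LinearMap.ker X)
      obtain ⟨J, hJ⟩ := exists_isCompl (LinearMap.range X)
      have fd : ∀ S : Submodule R V, FiniteDimensional k S := fun S =>
        FiniteDimensional.of_injective (S.subtype.restrictScalars k) (Submodule.injective_subtype S)
      have fd' : ∀ S : Submodule R W, FiniteDimensional k S := fun S =>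
        FiniteDimensional.of_injective (S.subtype.restrictScalars k) (Submodule.injective_subtype S)
      have i1 := fd (LinearMap.ker X)
      have i2 := fd C
      have i3 := fd' (LinearMap.range X)
      have i4 := fd' J
      let e1 : (LinearMap.ker X × C) ≃ₗ[R] V := Submodule.prodEquivOfIsCompl _ _ hC
      let e2 : (LinearMap.range X × J) ≃ₗ[R] W := Submodule.prodEquivOfIsCompl _ _ hJ
      let e3 : C ≃ₗ[R] LinearMap.range X :=
        (Submodule.quotientEquivOfIsCompl _ _ hC).symm.trans X.quotKerEquivRange
      have htr' : ∀ r : R, LinearMap.trace k (LinearMap.ker X) (act k (LinearMap.ker X) r) =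
          LinearMap.trace k J (act k J r) := by
        intro r
        have h2 := htr r
        rw [← tr_congr k e1, ← tr_congr k e2, tr_prod, tr_prod, tr_congr k e3] at h2
        linear_combination h2
      have hlt : finrank k (LinearMap.ker X) < N := by
        have h3 : finrank k (LinearMap.ker X × C) = finrank k V :=
          LinearEquiv.finrank_eq (e1.restrictScalars k)
        rw [Module.finrank_prod] at h3
        have h4 : 0 < finrank k C := by
          rw [Module.finrank_pos_iff]
          obtain ⟨v, hv⟩ : ∃ v, X v ≠ 0 := by
            by_contra hcon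
            push Not at hcon
            exact hX (LinearMap.ext hcon)
          have nt : Nontrivial (LinearMap.range X) :=
            ⟨⟨⟨X v, LinearMap.mem_range_self X v⟩, 0, fun h => hv (congrArg Subtype.val h)⟩⟩
          exact e3.toEquiv.nontrivial
        omega
      obtain ⟨e4⟩ := ih _ hlt (LinearMap.ker X) J rfl htr'
      exact ⟨e1.symm.trans ((LinearEquiv.prodCongr e4 e3).trans
        ((LinearEquiv.prodComm R J (LinearMap.range X)).trans e2))⟩

end Pool.Agent.Y410.PT

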