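import Pool.Agent.Y803.PT.Stm
import Pool.Agent.Y410.PT.BNAbs

/-!
# Brauer-Nesbitt for groups of matrices in characteristic zero
-/

namespace Pool.Agent.Y410.PT

open Matrix Module Pool.Agent.Y800

variable {G : Type} [Group G] {k : Type} [Field k] {n : ℕ}

/-- the representation on column vectors -/
noncomputable def rp (ρ : G →* GL (Fin n) k) : G →* Module.End k (Fin n → k) where
  toFun g := Matrix.toLin' (ρ g : Matrix (Fin n) (Fin n) k)
  map_one' := by
    rw [map_one]
    exact Matrix.toLin'_one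
  map_mul' g h := by
    rw [map_mul]
    exact Matrix.toLin'_mul _ _

/-- the action of the group algebra -/
noncomputable def al (ρ : G →* GL (Fin n) k) : MonoidAlgebra k G →ₐ[k] Module.End k (Fin n → k) :=
  MonoidAlgebra.lift k _ G (rp ρ)

theorem al_of (ρ : G →* GL (Fin n) k) (g : G) : al ρ (MonoidAlgebra.of k G g) = rp ρ g := by
  unfold al
  exact MonoidAlgebra.lift_of _ _

/-- column vectors as a module over the group algebra -/
def Md (_ : G →* GL (Fin n) k) : Type := Fin n → k

instance (ρ : G →* GL (Fin n) k) : AddCommGroup (Md ρ) := inferInstanceAs (AddCommGroup (Fin n → k))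

instance (ρ : G →* GL (Fin n) k) : Module k (Md ρ) := inferInstanceAs (Module k (Fin n → k))

instance (ρ : G →* GL (Fin n) k) : FiniteDimensional k (Md ρ) :=
  inferInstanceAs (FiniteDimensional k (Fin n → k))

noncomputable instance (ρ : G →* GL (Fin n) k) : Module (MonoidAlgebra k G) (Md ρ) :=
  Module.compHom (Fin n → k) (al ρ).toRingHom

theorem smul_def' (ρ : G →* GL (Fin n) k) (r : MonoidAlgebra k G) (v : Md ρ) :
    r • v = (al ρ r : Module.End k (Fin n → k)) (v : Fin n → k) := rfl

instance (ρ : G →* GL (Fin n) k) : IsScalarTower k (MonoidAlgebra k G) (Md ρ) where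
  smul_assoc c r v := by
    rw [smul_def', smul_def', map_smul]
    rfl

theorem of_smul (ρ : G →* GL (Fin n) k) (g : G) (v : Md ρ) :
    MonoidAlgebra.of k G g • v = (ρ g : Matrix (Fin n) (Fin n) k).mulVec v := by
  rw [smul_def', al_of]
  rfl

theorem stable_al (ρ : G →* GL (Fin n) k) {W : Submodule k (Fin n → k)} (hW : Stable ρ W)
    (r : MonoidAlgebra k G) {v : Fin n → k} (hv : v ∈ W) : (al ρ r) v ∈ W := by
  induction r using MonoidAlgebra.induction_on with
  | of g =>
    rw [al_of]
    exact hW g v hv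
  | add a b ha hb =>
    rw [map_add]
    exact W.add_mem ha hb
  | smul c a ha =>
    rw [map_smul]
    exact W.smul_mem c ha

/-- a stable subspace as a submodule -/
def up (ρ : G →* GL (Fin n) k) (W : Submodule k (Fin n → k)) (hW : Stable ρ W) :
    Submodule (MonoidAlgebra k G) (Md ρ) where
  carrier := (W : Set (Fin n → k))
  add_mem' {a b} ha hb := W.add_mem ha hb
  zero_mem' := W.zero_mem
  smul_mem' r v hv := stable_al ρ hW r hv

/-- a submodule as a subspace -/
def down (ρ : G →* GL (Fin n) k) (S : Submodule (MonoidAlgebra k G) (Md ρ)) :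
    Submodule k (Fin n → k) where
  carrier := (S : Set (Md ρ))
  add_mem' {a b} ha hb := S.add_mem ha hb
  zero_mem' := S.zero_mem
  smul_mem' c v hv := by
    have h1 : (algebraMap k (MonoidAlgebra k G) c) • (show Md ρ from v) ∈ S := S.smul_mem _ hv
    rw [algebraMap_smul] at h1
    exact h1

theorem down_stable (ρ : G →* GL (Fin n) k) (S : Submodule (MonoidAlgebra k G) (Md ρ)) :
    Stable ρ (down ρ S) := by
  intro g w hw
  have h1 : (MonoidAlgebra.of k G g) • (show Md ρ from w) ∈ S := S.smul_mem _ hw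
  rw [of_smul] at h1
  exact h1

theorem semisimple (ρ : G →* GL (Fin n) k) (h : IsSemisimpleRep ρ) :
    IsSemisimpleModule (MonoidAlgebra k G) (Md ρ) := by
  rw [isSemisimpleModule_iff]
  refine ⟨fun S => ?_⟩
  obtain ⟨W', hW', hc⟩ := h (down ρ S) (down_stable ρ S)
  refine ⟨up ρ W' hW', ?_, ?_⟩
  · rw [Submodule.disjoint_def]
    intro x hx hx'
    exact (Submodule.disjoint_def.1 hc.disjoint) x hx hx'
  · rw [Submodule.codisjoint_iff_exists_add_eq]
    intro z
    exact (Submodule.codisjoint_iff_exists_add_eq.1 hc.codisjoint) z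

theorem tr_act (ρ : G →* GL (Fin n) k) (r : MonoidAlgebra k G) :
    LinearMap.trace k (Md ρ) (act k (Md ρ) r) = LinearMap.trace k (Fin n → k) (al ρ r) := rfl

theorem bn : Pool.Agent.Y803.PT.BN := by
  intro G _ k _ _ n ρ σ hρ hσ ht
  have s1 := semisimple ρ hρ
  have s2 := semisimple σ hσ
  have htr : ∀ r : MonoidAlgebra k G, LinearMap.trace k (Md ρ) (act k (Md ρ) r) =
      LinearMap.trace k (Md σ) (act k (Md σ) r) := by
    intro r
    rw [tr_act, tr_act]
    induction r using MonoidAlgebra.induction_on with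
    | of g =>
      rw [al_of, al_of]
      change LinearMap.trace k (Fin n → k) (Matrix.toLin' _) =
        LinearMap.trace k (Fin n → k) (Matrix.toLin' _)
      rw [Matrix.trace_toLin'_eq, Matrix.trace_toLin'_eq]
      exact ht g
    | add a b ha hb =>
      rw [map_add, map_add, map_add, map_add, ha, hb]
    | smul c a ha =>
      rw [map_smul, map_smul, map_smul, map_smul, ha]
  obtain ⟨e⟩ := bn_abs (k := k) (R := MonoidAlgebra k G) _ (Md ρ) (Md σ) rfl htr
  let E : (Fin n → k) ≃ₗ[k] (Fin n → k) := (e.restrictScalars k : Md ρ ≃ₗ[k] Md σ)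
  have hE : ∀ (g : G) (v : Fin n → k), E ((ρ g : Matrix (Fin n) (Fin n) k).mulVec v) =
      (σ g : Matrix (Fin n) (Fin n) k).mulVec (E v) := by
    intro g v
    have h1 := e.map_smul (MonoidAlgebra.of k G g) (show Md ρ from v)
    rw [of_smul, of_smul] at h1
    exact h1
  have m1 : LinearMap.toMatrix' E.toLinearMap * LinearMap.toMatrix' E.symm.toLinearMap = 1 := by
    rw [← LinearMap.toMatrix'_comp, LinearEquiv.comp_symm, LinearMap.toMatrix'_id]
  have m2 : LinearMap.toMatrix' E.symm.toLinearMap * LinearMap.toMatrix' E.toLinearMap = 1 := by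
    rw [← LinearMap.toMatrix'_comp, LinearEquiv.symm_comp, LinearMap.toMatrix'_id]
  refine ⟨⟨LinearMap.toMatrix' E.symm.toLinearMap, LinearMap.toMatrix' E.toLinearMap, m2, m1⟩,
    fun g => ?_⟩
  apply Units.ext
  change (ρ g : Matrix (Fin n) (Fin n) k) = LinearMap.toMatrix' E.symm.toLinearMap *
    (σ g : Matrix (Fin n) (Fin n) k) * LinearMap.toMatrix' E.toLinearMap
  have h2 : LinearMap.toMatrix' E.toLinearMap * (ρ g : Matrix (Fin n) (Fin n) k) =
      (σ g : Matrix (Fin n) (Fin n) k) * LinearMap.toMatrix' E.toLinearMap := by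
    apply Matrix.toLin'.injective
    rw [Matrix.toLin'_mul, Matrix.toLin'_mul, Matrix.toLin'_toMatrix']
    ext v
    simp only [LinearMap.comp_apply, Matrix.toLin'_apply, LinearEquiv.coe_coe]
    rw [hE]
  rw [mul_assoc, ← h2, ← mul_assoc, m2, one_mul]

end Pool.Agent.Y410.PT
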